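import Pool.Agent.MP_c357a0_lc.Mg.Pos

namespace Pool.Agent.Results.MP_c357a0_lc.DifferenceHierarchy

open Pool.Agent.MP_c357a0_lc

/-- For `n ≥ 2` and computable `h`, level `h` of the difference hierarchy over Sigma n contains an
`n`-cohesive set, or equivalently an `n`-r-cohesive set, exactly when `h` is unbounded. -/
theorem result (n : ℕ) (hn : 2 ≤ n) (h : ℕ → ℕ) (hh : Computable h) :
    List.TFAE [∃ A, Cohesive n A ∧ DiffLevel n h A, ∃ A, RCohesive n A ∧ DiffLevel n h A,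
      ¬ BddAbove (Set.range h)] := by
  obtain ⟨k, rfl⟩ : ∃ k, n = k + 2 := ⟨n - 2, by omega⟩
  tfae_have 1 → 2 := fun ⟨A, h1, h2⟩ => ⟨A, ⟨h1.1, fun C hC => h1.2 C hC.to_re⟩, h2⟩
  tfae_have 2 → 3 := fun ⟨A, h1, h2⟩ hb => neg hh hb h1 h2
  tfae_have 3 → 1 := pos (k + 1) hh
  tfae_finish

end Pool.Agent.Results.MP_c357a0_lc.DifferenceHierarchy
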